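import Pool.Agent.R195.DV.Emb

/-!
# Asymptotics of the `t`-dimension
-/

set_option autoImplicit false

open Filter Topology

namespace R195.DV

/-- lower bound -/
theorem lower (α : ℝ) (hα : 0 < α) (hα1 : α < 1) (t n d : ℕ) (h : Emb t (Dv α n) (Fin d)) :
    (1 - α) * n ≤ (t : ℝ) ^ d := by
  obtain ⟨f, hf, _⟩ := h
  set F := ⌊α * n⌋₊ with hF
  have hn : (0 : ℝ) ≤ n := by positivity
  have h0 : (0 : ℝ) ≤ α * n := by positivity
  have hFle : (F : ℝ) ≤ α * n := Nat.floor_le h0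
  have hmem : ∀ i : Fin (n - F), F + 1 + i ∈ Dv α n := by
    intro i
    have hi := i.2
    constructor
    · have : α * n < F + 1 := Nat.lt_floor_add_one _
      push_cast
      have : (0 : ℝ) ≤ (i : ℕ) := by positivity
      linarith
    · omega
  let g : Fin (n - F) → (Fin d → Fin t) := fun i => f ⟨F + 1 + i, hmem i⟩
  have hg : Function.Injective g := by
    intro i j hij
    have h1 := hf hij
    have h2 : F + 1 + (i : ℕ) = F + 1 + (j : ℕ) := congrArg Subtype.val h1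
    exact Fin.ext (by omega)
  have hcard := Fintype.card_le_of_injective g hg
  rw [Fintype.card_fun, Fintype.card_fin, Fintype.card_fin, Fintype.card_fin] at hcard
  have h3 : (n : ℝ) - F ≤ ((n - F : ℕ) : ℝ) := by
    have : n ≤ (n - F) + F := by omega
    have : (n : ℝ) ≤ ((n - F : ℕ) : ℝ) + F := by exact_mod_cast this
    linarith
  have h4 : ((n - F : ℕ) : ℝ) ≤ (t : ℝ) ^ d := by exact_mod_cast hcard
  linarith

theorem ev_sqrt (K c : ℝ) (hK : 0 ≤ K) (hc : 0 < c) :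
    ∀ᶠ x : ℝ in atTop, 1 + K * Real.sqrt (2 * x + 1) ≤ c * x := by
  have h1 : ∀ᶠ x : ℝ in atTop, (1 + 2 * K) / c ≤ Real.sqrt x :=
    (Real.tendsto_sqrt_atTop).eventually_ge_atTop _
  filter_upwards [h1, eventually_ge_atTop (1 : ℝ)] with x hx hx1
  have h2 : Real.sqrt (2 * x + 1) ≤ 2 * Real.sqrt x := by
    rw [show (2 : ℝ) * Real.sqrt x = Real.sqrt (4 * x) by
      rw [Real.sqrt_mul (by norm_num)]
      congr 1
      rw [show (4 : ℝ) = 2 ^ 2 by norm_num]
      rw [Real.sqrt_sq (by norm_num)]]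
    apply Real.sqrt_le_sqrt
    linarith
  have h3 : 1 ≤ Real.sqrt x := by
    rw [show (1 : ℝ) = Real.sqrt 1 by simp]
    exact Real.sqrt_le_sqrt hx1
  have h4 : Real.sqrt x * Real.sqrt x = x := Real.mul_self_sqrt (by linarith)
  rw [div_le_iff₀ hc] at hx
  have h5 : (1 + 2 * K) * Real.sqrt x ≤ Real.sqrt x * c * Real.sqrt x :=
    mul_le_mul_of_nonneg_right hx (by linarith)
  nlinarith [mul_le_mul_of_nonneg_left h2 hK]

theorem ev_exp (C₁ C₂ e : ℝ) (h1 : 0 ≤ C₁) (h2 : 0 ≤ C₂) (he : 0 < e) :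
    ∀ᶠ x : ℝ in atTop, C₁ * x + C₂ ≤ Real.exp (e * x) := by
  filter_upwards [eventually_ge_atTop (1 : ℝ), eventually_ge_atTop (4 * (C₁ + C₂) / e ^ 2)] with x hx1 hx2
  have h3 : Real.exp (e * x) = Real.exp (e * x / 2) * Real.exp (e * x / 2) := by
    rw [← Real.exp_add]; congr 1; ring
  have h4 : e * x / 2 ≤ Real.exp (e * x / 2) := by
    have := Real.add_one_le_exp (e * x / 2)
    linarith
  have h5 : 0 ≤ e * x / 2 := by positivity
  have h6 : (e * x / 2) * (e * x / 2) ≤ Real.exp (e * x) := by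
    rw [h3]
    exact mul_le_mul h4 h4 h5 (by positivity)
  have h7 : C₁ * x + C₂ ≤ (C₁ + C₂) * x := by nlinarith
  rw [div_le_iff₀ (by positivity)] at hx2
  have h8 : (C₁ + C₂) * x ≤ (e * x / 2) * (e * x / 2) := by nlinarith
  linarith

/-- the upper bound -/
theorem upper (α : ℝ) (hα : 0 < α) (t : ℕ) (ht : 2 ≤ t) (c : ℝ)
    (hc : 1 / Real.log t < c) :
    ∀ᶠ n : ℕ in atTop, ∃ d : ℕ, 1 ≤ d ∧ Emb t (Dv α n) (Fin d) ∧ (d : ℝ) ≤ c * Real.log n := by
  obtain ⟨c', h1, h2⟩ := exists_between hc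
  have ht' : (2 : ℝ) ≤ t := by exact_mod_cast ht
  have hlt : 0 < Real.log t := Real.log_pos (by linarith)
  have hc'0 : 0 < c' := lt_trans (by positivity) h1
  set e := c' * Real.log t - 1 with he
  have he0 : 0 < e := by
    rw [div_lt_iff₀ hlt] at h1
    linarith
  set B := ⌈1 / α⌉₊ with hB
  have hB1 : 1 ≤ B := Nat.ceil_pos.2 (by positivity)
  have hBα : 1 ≤ (B : ℝ) * α := by
    have : 1 / α ≤ B := Nat.le_ceil _
    rw [div_le_iff₀ hα] at this
    exact this
  set J := 2 * B with hJ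
  set K : ℝ := ((B * J : ℕ) : ℝ) ^ B * 2 ^ B with hK
  have hlog : Tendsto (fun n : ℕ => Real.log n) atTop atTop :=
    Real.tendsto_log_atTop.comp tendsto_natCast_atTop_atTop
  have ev1 := hlog.eventually (ev_sqrt K (c - c') (by positivity) (by linarith))
  have ev2 := hlog.eventually (ev_exp (c' * t) (t + 1) e (by positivity) (by positivity) he0)
  have ev3 := hlog.eventually (eventually_ge_atTop (1 : ℝ))
  filter_upwards [ev1, ev2, ev3, eventually_ge_atTop 2] with n g1 g2 g3 g4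
  have hn0 : (0 : ℝ) < n := by positivity
  set x := Real.log n with hx
  set L := Nat.log 2 n with hL
  -- the base
  set w := ⌈((L : ℝ) + 1) ^ (1 / (J : ℝ))⌉₊ with hw
  have hJ0 : (0 : ℝ) < J := by
    have : 1 ≤ J := by omega
    exact_mod_cast this
  have hL1 : (1 : ℝ) ≤ (L : ℝ) + 1 := by
    have : (0 : ℝ) ≤ L := by positivity
    linarith
  have hr1 : 1 ≤ ((L : ℝ) + 1) ^ (1 / (J : ℝ)) := Real.one_le_rpow hL1 (by positivity)
  have hwJ : L + 1 ≤ w ^ J := by
    have h3 : ((L : ℝ) + 1) ^ (1 / (J : ℝ)) ≤ w := Nat.le_ceil _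
    have h4 : (((L : ℝ) + 1) ^ (1 / (J : ℝ))) ^ J ≤ (w : ℝ) ^ J :=
      pow_le_pow_left₀ (by positivity) h3 J
    rw [← Real.rpow_natCast, ← Real.rpow_mul (by linarith), one_div, inv_mul_cancel₀ hJ0.ne',
      Real.rpow_one] at h4
    exact_mod_cast h4
  have hw2 : (w : ℝ) ≤ 2 * ((L : ℝ) + 1) ^ (1 / (J : ℝ)) := by
    have := Nat.ceil_lt_add_one (show 0 ≤ ((L : ℝ) + 1) ^ (1 / (J : ℝ)) by positivity)
    linarith
  have hwB : (w : ℝ) ^ B ≤ 2 ^ B * Real.sqrt (2 * x + 1) := by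
    have h3 : (w : ℝ) ^ B ≤ (2 * ((L : ℝ) + 1) ^ (1 / (J : ℝ))) ^ B :=
      pow_le_pow_left₀ (by positivity) hw2 B
    refine h3.trans ?_
    rw [mul_pow]
    refine mul_le_mul_of_nonneg_left ?_ (by positivity)
    rw [← Real.rpow_natCast, ← Real.rpow_mul (by linarith), Real.sqrt_eq_rpow]
    have e1 : 1 / (J : ℝ) * (B : ℝ) = 1 / 2 := by
      rw [hJ]
      push_cast
      have : (B : ℝ) ≠ 0 := by
        have : (0 : ℝ) < B := by exact_mod_cast hB1
        exact this.ne'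
      field_simp
    rw [e1]
    apply Real.rpow_le_rpow (by linarith) _ (by norm_num)
    -- L ≤ 2 log n
    have h5 : (2 : ℝ) ^ L ≤ n := by
      have := Nat.pow_log_le_self 2 (show n ≠ 0 by omega)
      exact_mod_cast this
    have h6 : (L : ℝ) * Real.log 2 ≤ x := by
      rw [hx, ← Real.log_pow]
      exact Real.log_le_log (by positivity) h5
    have h7 : (1 : ℝ) / 2 ≤ Real.log 2 := by
      have := Real.log_two_gt_d9
      linarith
    have h8 : (0 : ℝ) ≤ L := by positivity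
    nlinarith
  -- the antichain
  set d' := ⌈c' * x⌉₊ with hd'
  have hd1 : c' * x ≤ d' := Nat.le_ceil _
  have hd2 : (d' : ℝ) ≤ c' * x + 1 :=
    (Nat.ceil_lt_add_one (by positivity)).le
  have hanti : n * (d' * (t - 1) + 1) ≤ t ^ d' := by
    have h3 : ((d' * (t - 1) + 1 : ℕ) : ℝ) ≤ Real.exp (e * x) := by
      refine le_trans ?_ g2
      push_cast [Nat.cast_sub (show 1 ≤ t by omega)]
      have h4 : (0 : ℝ) ≤ d' := by positivity
      have h5 : (d' : ℝ) * ((t : ℝ) - 1) ≤ d' * t := by nlinarith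
      have h6 : (d' : ℝ) * t ≤ (c' * x + 1) * t := by gcongr
      linarith
    have h4 : (t : ℝ) ^ d' = Real.exp (d' * Real.log t) := by
      rw [mul_comm, Real.exp_mul, Real.exp_log (by linarith), Real.rpow_natCast]
    have h5 : (n : ℝ) * Real.exp (e * x) ≤ (t : ℝ) ^ d' := by
      rw [h4, ← Real.exp_log hn0, ← Real.exp_add]
      apply Real.exp_le_exp.2
      rw [← hx, he]
      have : c' * x * Real.log t ≤ d' * Real.log t := mul_le_mul_of_nonneg_right hd1 hlt.le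
      linarith
    have h6 : (n : ℝ) * ((d' * (t - 1) + 1 : ℕ) : ℝ) ≤ (t : ℝ) ^ d' :=
      (mul_le_mul_of_nonneg_left h3 hn0.le).trans h5
    exact_mod_cast h6
  obtain ⟨a, ha⟩ := antichain t d' n hanti
  have hemb := (emb_main α hα n B hBα t ht d' J w (by omega) a ha hwJ).fin
  have hcard : Fintype.card (Fin d' ⊕ ((Fin B → Fin B × Fin J) × (Fin B → Fin w))) =
      d' + (B * J) ^ B * w ^ B := by
    simp
  rw [hcard] at hemb
  refine ⟨d' + (B * J) ^ B * w ^ B, ?_, hemb, ?_⟩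
  · have : 0 < d' := Nat.ceil_pos.2 (by positivity)
    omega
  · have h3 : ((d' + (B * J) ^ B * w ^ B : ℕ) : ℝ) = d' + ((B * J : ℕ) : ℝ) ^ B * (w : ℝ) ^ B := by
      push_cast; ring
    rw [h3]
    have h4 : ((B * J : ℕ) : ℝ) ^ B * (w : ℝ) ^ B ≤ K * Real.sqrt (2 * x + 1) := by
      rw [hK, mul_assoc]
      exact mul_le_mul_of_nonneg_left hwB (by positivity)
    linarith

end R195.DV
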