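import Mathlib

/-!
# Embedding the divisibility order on `(αn, n]` into products of chains
-/

set_option autoImplicit false

open Finset

namespace R195.DV

/-- the integers in `(αn, n]` -/
def Dv (α : ℝ) (n : ℕ) : Set ℕ := {m | α * n < m ∧ m ≤ n}

/-- order embedding of `S`, ordered by divisibility, into `ι → {0,…,t-1}` -/
def Emb (t : ℕ) (S : Set ℕ) (ι : Type) : Prop :=
  ∃ f : S → (ι → Fin t), Function.Injective f ∧ ∀ x y : S, (x : ℕ) ∣ y ↔ f x ≤ f y

theorem Emb.fin {t : ℕ} {S : Set ℕ} {ι : Type} [Fintype ι] (h : Emb t S ι) :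
    Emb t S (Fin (Fintype.card ι)) := by
  obtain ⟨f, hf, hle⟩ := h
  let e := Fintype.equivFin ι
  refine ⟨fun x i => f x (e.symm i), ?_, ?_⟩
  · intro x y hxy
    apply hf
    funext i
    have := congrFun hxy (e i)
    simpa using this
  · intro x y
    rw [hle]
    constructor
    · intro h i; exact h _
    · intro h i
      have := h (e i)
      simpa using this

/-- large antichains -/
theorem antichain (t d n : ℕ) (h : n * (d * (t - 1) + 1) ≤ t ^ d) :
    ∃ a : Fin n → (Fin d → Fin t), ∀ i j, a i ≤ a j → i = j := by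
  classical
  have h1 : ∀ x ∈ (univ : Finset (Fin d → Fin t)), ∑ i, ((x i : Fin t) : ℕ) ∈ range (d * (t - 1) + 1) := by
    intro x _
    rw [Finset.mem_range]
    have : ∑ i, ((x i : Fin t) : ℕ) ≤ ∑ _i : Fin d, (t - 1) :=
      Finset.sum_le_sum (fun i _ => by have := (x i).2; omega)
    rw [Finset.sum_const, Finset.card_univ, Fintype.card_fin, smul_eq_mul] at this
    omega
  obtain ⟨r, _, hr⟩ := Finset.exists_le_card_fiber_of_mul_le_card_of_maps_to (n := n) h1
    ⟨0, by simp⟩ (by
      rw [Finset.card_range, Finset.card_univ, Fintype.card_fun, Fintype.card_fin, Fintype.card_fin, mul_comm]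
      exact h)
  set Fb : Finset (Fin d → Fin t) :=
    (univ : Finset (Fin d → Fin t)).filter (fun x => ∑ i, ((x i : Fin t) : ℕ) = r) with hFb
  have h2 : Fintype.card (Fin n) ≤ Fintype.card (↥Fb) := by
    rw [Fintype.card_fin, Fintype.card_coe]
    exact hr
  obtain ⟨g⟩ := Function.Embedding.nonempty_of_card_le h2
  refine ⟨fun i => (g i).1, fun i j hij => ?_⟩
  have e1 : ∑ k, (((g i).1 k : Fin t) : ℕ) = r := (Finset.mem_filter.1 (g i).2).2
  have e2 : ∑ k, (((g j).1 k : Fin t) : ℕ) = r := (Finset.mem_filter.1 (g j).2).2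
  have e3 : ∀ k ∈ (univ : Finset (Fin d)), (((g i).1 k : Fin t) : ℕ) = (((g j).1 k : Fin t) : ℕ) :=
    (Finset.sum_eq_sum_iff_of_le (f := fun k => (((g i).1 k : Fin t) : ℕ))
      (g := fun k => (((g j).1 k : Fin t) : ℕ)) (fun k _ => hij k)).1 (e1.trans e2.symm)
  apply g.injective
  apply Subtype.ext
  funext k
  exact Fin.ext (e3 k (Finset.mem_univ k))

/-- the part of the factorization at the primes `≥ B` -/
noncomputable def lab (B x : ℕ) : ℕ →₀ ℕ := x.factorization.filter (fun p => B ≤ p)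

theorem fact_le_log (z n p : ℕ) (hz : z ≠ 0) (hzn : z ≤ n) : z.factorization p ≤ Nat.log 2 n := by
  by_cases hp : p.Prime
  · apply Nat.le_log_of_pow_le (by norm_num)
    calc 2 ^ z.factorization p ≤ p ^ z.factorization p := Nat.pow_le_pow_left hp.two_le _
      _ ≤ z := Nat.le_of_dvd (Nat.pos_of_ne_zero hz) (Nat.ordProj_dvd z p)
      _ ≤ n := hzn
  · rw [Nat.factorization_eq_zero_of_not_prime z hp]
    exact Nat.zero_le _

/-- the main embedding -/
theorem emb_main (α : ℝ) (hα : 0 < α) (n B : ℕ) (hB : 1 ≤ B * α) (t : ℕ) (ht : 2 ≤ t) (d J w : ℕ)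
    (hJ : 1 ≤ J) (a : Fin n → (Fin d → Fin t)) (ha : ∀ i j, a i ≤ a j → i = j)
    (hw : Nat.log 2 n + 1 ≤ w ^ J) :
    Emb t (Dv α n) (Fin d ⊕ ((Fin B → Fin B × Fin J) × (Fin B → Fin w))) := by
  classical
  set L := Nat.log 2 n with hL
  -- codes for the exponents
  have hc : Fintype.card (Fin (L + 1)) ≤ Fintype.card (Fin J → Fin w) := by
    rw [Fintype.card_fun, Fintype.card_fin, Fintype.card_fin, Fintype.card_fin]
    exact hw
  obtain ⟨c⟩ := Function.Embedding.nonempty_of_card_le hc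
  let ex : ℕ → ℕ → Fin (L + 1) := fun z p => ⟨min (z.factorization p) L, by omega⟩
  let code : ℕ → Fin B × Fin J → Fin w := fun z q => c (ex z q.1) q.2
  -- labels
  let labs : Finset (ℕ →₀ ℕ) := (Finset.Icc 1 n).image (lab B)
  have hlabs : Fintype.card {x // x ∈ labs} ≤ Fintype.card (Fin n) := by
    rw [Fintype.card_coe, Fintype.card_fin]
    refine Finset.card_image_le.trans ?_
    simp
  obtain ⟨lam⟩ := Function.Embedding.nonempty_of_card_le hlabs
  have hpos : ∀ x ∈ Dv α n, 1 ≤ x ∧ x ≤ n := by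
    intro x hx
    refine ⟨?_, hx.2⟩
    have h1 : (0 : ℝ) < x := lt_of_le_of_lt (by positivity) hx.1
    exact_mod_cast h1
  have hmem : ∀ x : Dv α n, lab B (x : ℕ) ∈ labs := by
    intro x
    have := hpos x.1 x.2
    exact Finset.mem_image.2 ⟨x.1, Finset.mem_Icc.2 this, rfl⟩
  -- quotients are small
  have hquot : ∀ x ∈ Dv α n, ∀ y ∈ Dv α n, ∀ q, y = x * q → q < B ∧ 1 ≤ q := by
    intro x hx y hy q hq
    have hxp := (hpos x hx).1
    have hyp := (hpos y hy).1
    constructor
    · by_contra hcon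
      push Not at hcon
      have h1 : (x : ℝ) * B ≤ y := by
        rw [hq]; push_cast
        have : (B : ℝ) ≤ q := by exact_mod_cast hcon
        have : (0 : ℝ) ≤ x := by positivity
        nlinarith
      have h2 : (y : ℝ) ≤ n := by exact_mod_cast hy.2
      have h3 : α * n < x := hx.1
      have h4 : (0 : ℝ) < B := by
        by_contra h
        have : (B : ℝ) * α ≤ 0 := mul_nonpos_of_nonpos_of_nonneg (not_lt.1 h) hα.le
        linarith
      have h5 : α * n * B < x * B := mul_lt_mul_of_pos_right h3 h4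
      have h6 : (n : ℝ) ≤ α * n * B := by
        have : (0 : ℝ) ≤ n := by positivity
        nlinarith
      linarith
    · rcases Nat.eq_zero_or_pos q with h0 | h0
      · rw [h0, mul_zero] at hq; omega
      · exact h0
  have hlabeq : ∀ x ∈ Dv α n, ∀ y ∈ Dv α n, x ∣ y → lab B x = lab B y := by
    intro x hx y hy hxy
    obtain ⟨q, hq⟩ := hxy
    obtain ⟨hqB, hq1⟩ := hquot x hx y hy q hq
    have hx0 : x ≠ 0 := by have := (hpos x hx).1; omega
    have hq0 : q ≠ 0 := by omega
    ext p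
    unfold lab
    rw [hq, Nat.factorization_mul hx0 hq0]
    by_cases hp : B ≤ p
    · rw [Finsupp.filter_apply_pos _ _ hp, Finsupp.filter_apply_pos _ _ hp, Finsupp.add_apply,
        Nat.factorization_eq_zero_of_lt (by omega : q < p), add_zero]
    · rw [Finsupp.filter_apply_neg _ _ hp, Finsupp.filter_apply_neg _ _ hp]
  have hcode : ∀ x ∈ Dv α n, ∀ y ∈ Dv α n, lab B x = lab B y → x ≠ y → ∃ q, code x q ≠ code y q := by
    intro x hx y hy hl hne
    by_contra hcon
    push Not at hcon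
    apply hne
    have hx0 : x ≠ 0 := by have := (hpos x hx).1; omega
    have hy0 : y ≠ 0 := by have := (hpos y hy).1; omega
    apply Nat.eq_of_factorization_eq hx0 hy0
    intro p
    by_cases hp : B ≤ p
    · have := DFunLike.congr_fun hl p
      unfold lab at this
      rwa [Finsupp.filter_apply_pos _ _ hp, Finsupp.filter_apply_pos _ _ hp] at this
    · have h1 : c (ex x p) = c (ex y p) := by
        funext j
        exact hcon (⟨p, by omega⟩, j)
      have h2 := c.injective h1
      have h3 : min (x.factorization p) L = min (y.factorization p) L := congrArg Fin.val h2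
      have h4 := fact_le_log x n p hx0 hx.2
      have h5 := fact_le_log y n p hy0 hy.2
      omega
  let one : Fin t := ⟨1, by omega⟩
  let zer : Fin t := ⟨0, by omega⟩
  let f : Dv α n → (Fin d ⊕ ((Fin B → Fin B × Fin J) × (Fin B → Fin w)) → Fin t) := fun x =>
    Sum.elim (a (lam ⟨lab B x, hmem x⟩))
      (fun ab => if ∃ z ∈ Dv α n, z ∣ (x : ℕ) ∧ ∀ i, code z (ab.1 i) = ab.2 i then one else zer)
  have hiff : ∀ x y : Dv α n, (x : ℕ) ∣ y ↔ f x ≤ f y := by
    intro x y
    constructor
    · intro hxy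
      have hl := hlabeq x.1 x.2 y.1 y.2 hxy
      intro k
      rcases k with k | ab
      · show a (lam ⟨lab B x, hmem x⟩) k ≤ a (lam ⟨lab B y, hmem y⟩) k
        have : (⟨lab B x, hmem x⟩ : {x // x ∈ labs}) = ⟨lab B y, hmem y⟩ := Subtype.ext hl
        rw [this]
      · show (if ∃ z ∈ Dv α n, z ∣ (x : ℕ) ∧ ∀ i, code z (ab.1 i) = ab.2 i then one else zer) ≤
          (if ∃ z ∈ Dv α n, z ∣ (y : ℕ) ∧ ∀ i, code z (ab.1 i) = ab.2 i then one else zer)
        by_cases h : ∃ z ∈ Dv α n, z ∣ (x : ℕ) ∧ ∀ i, code z (ab.1 i) = ab.2 i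
        · obtain ⟨z, hz, hzx, hzc⟩ := h
          rw [if_pos ⟨z, hz, hzx, hzc⟩, if_pos ⟨z, hz, hzx.trans hxy, hzc⟩]
        · rw [if_neg h]
          exact Nat.zero_le _
    · intro hle
      have h1 : a (lam ⟨lab B x, hmem x⟩) ≤ a (lam ⟨lab B y, hmem y⟩) := fun k => hle (Sum.inl k)
      have h2 := lam.injective (ha _ _ h1)
      have hl : lab B (x : ℕ) = lab B (y : ℕ) := congrArg Subtype.val h2
      by_contra hxy
      -- the separating coordinate
      let a0 : Fin B → Fin B × Fin J := fun i =>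
        if h : ∃ q, code ((y : ℕ) / i) q ≠ code x q then Classical.choose h
        else (i, ⟨0, hJ⟩)
      let b0 : Fin B → Fin w := fun i => code x (a0 i)
      have h3 : f x (Sum.inr (a0, b0)) = one := by
        show (if ∃ z ∈ Dv α n, z ∣ (x : ℕ) ∧ ∀ i, code z (a0 i) = b0 i then one else zer) = one
        rw [if_pos ⟨x.1, x.2, dvd_rfl, fun i => rfl⟩]
      have h4 : one ≤ f y (Sum.inr (a0, b0)) := by
        rw [← h3]; exact hle _
      have h5 : ∃ z ∈ Dv α n, z ∣ (y : ℕ) ∧ ∀ i, code z (a0 i) = b0 i := by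
        by_contra hcon
        have : f y (Sum.inr (a0, b0)) = zer := by
          show (if ∃ z ∈ Dv α n, z ∣ (y : ℕ) ∧ ∀ i, code z (a0 i) = b0 i then one else zer) = zer
          rw [if_neg hcon]
        rw [this] at h4
        have h6 : (1 : ℕ) ≤ 0 := h4
        omega
      obtain ⟨z, hz, ⟨q, hq⟩, hzc⟩ := h5
      obtain ⟨hqB, hq1⟩ := hquot z hz y.1 y.2 q hq
      have hzx : z ≠ (x : ℕ) := by
        intro h
        apply hxy
        rw [← h]
        exact ⟨q, hq⟩
      have hlz : lab B z = lab B (x : ℕ) := by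
        rw [hlabeq z hz y.1 y.2 ⟨q, hq⟩, ← hl]
      have hex := hcode z hz x.1 x.2 hlz hzx
      have hdiv : (y : ℕ) / ((⟨q, hqB⟩ : Fin B) : ℕ) = z := by
        show (y : ℕ) / q = z
        rw [hq]
        exact Nat.mul_div_cancel _ hq1
      have hex' : ∃ q', code ((y : ℕ) / ((⟨q, hqB⟩ : Fin B) : ℕ)) q' ≠ code x q' := by
        rw [hdiv]; exact hex
      have h7 : a0 ⟨q, hqB⟩ = Classical.choose hex' := dif_pos hex'
      have h8 := Classical.choose_spec hex'
      rw [← h7, hdiv] at h8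
      exact h8 (hzc ⟨q, hqB⟩)
  refine ⟨f, ?_, hiff⟩
  intro x y hxy
  have h1 : (x : ℕ) ∣ y := (hiff x y).2 (le_of_eq hxy)
  have h2 : (y : ℕ) ∣ x := (hiff y x).2 (le_of_eq hxy.symm)
  exact Subtype.ext (Nat.dvd_antisymm h1 h2)

end R195.DV
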